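import Pool.Agent.Helper66.NI.RDefs
import Pool.Agent.Helper66.NI.FIN
import Pool.Agent.Helper66.NI.LOW
import Pool.Agent.Helper66.NI.PW
import Pool.Agent.Helper66.NI.SOS
import Pool.Agent.Helper66.NI.SUP
import Pool.Agent.Helper66.NI.VAR
import Pool.Agent.Helper7.NI.BAS
import Pool.Agent.Helper7.NI.EXP
import Pool.Agent.Helper7.NI.HALF
import Pool.Agent.Helper7.NI.K
import Pool.Agent.Helper7.NI.SPL1
import Pool.Agent.Helper7.NI.SPL2
import Pool.Agent.Helper22.NI.APX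
import Pool.Agent.Helper27.NI.ROT
import Pool.Agent.Helper33.NI.ATL
import Pool.Agent.Helper75.NI.KD
import Pool.Agent.Helper75.NI.TEN

open MeasureTheory
open scoped ENNReal
open Pool.Agent.Helper66.NI (st_BAS st_EXP st_SUP st_RAD st_RADLE st_K st_KD st_SPL1 st_SPL2 st_VAR
  st_LOW st_PW st_APX st_ROT st_HALF st_TEN st_SOS st_ATL fin_nar fin_idx fin_num fin_ne)
open Pool.Agent.Helper66.NarrowReal

namespace Pool.Agent.Results.MP_119d8d_an.NarrowLarger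

instance four : Fact ((1 : ℝ≥0∞) ≤ 4) := ⟨by norm_num⟩

theorem nar_eq {Ω : Type} [MeasurableSpace Ω] (μ : Measure Ω) [IsFiniteMeasure μ] :
    narIndex 4 μ = Pool.Agent.Helper66.NI.narIndex ℝ 4 μ := by
  unfold narIndex Pool.Agent.Helper66.NI.narIndex
  congr 1
  ext r
  constructor
  · rintro ⟨T, h1, h2, h3⟩
    exact ⟨T, h1, h2.split, h3⟩
  · rintro ⟨T, h1, h2, h3⟩
    exact ⟨T, h1, ⟨h2⟩, h3⟩

theorem result :
    (∀ (Ω : Type) [MeasurableSpace Ω] (μ : Measure Ω) [IsFiniteMeasure μ],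
      μ ≠ 0 → Atomless μ → narIndex 4 μ = Real.sqrt 2 / 4) ∧
    (Atomless (volume.restrict (Set.Icc (0 : ℝ) 1)) ∧
      numIndex (Lp ℝ 4 (volume.restrict (Set.Icc (0 : ℝ) 1))) ≤ 0.3535 ∧
      (0.3535 : ℝ) < Real.sqrt 2 / 4) ∧
    ¬ (∀ (p : ℝ≥0∞) [Fact (1 ≤ p)], 1 < p → p < ∞ →
      ∀ (Ω : Type) [MeasurableSpace Ω] (μ : Measure Ω) [IsFiniteMeasure μ],
        μ ≠ 0 → Atomless μ → numIndex (Lp ℝ p μ) = narIndex p μ) := by
  have hBAS := st_BAS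
  have hEXP := st_EXP hBAS
  have hSUP := st_SUP hBAS hEXP
  have hRAD := st_RAD hBAS
  have hRADLE := st_RADLE hSUP
  have hK := st_K (st_KD (st_SPL2 st_SPL1) hBAS)
  have hVAR := st_VAR hBAS hEXP
  have hLOW := st_LOW hK hVAR st_PW st_APX hBAS
  have hROT := st_ROT st_HALF hBAS
  have hTEN := st_TEN hBAS
  have h1 : ∀ (Ω : Type) [MeasurableSpace Ω] (μ : Measure Ω) [IsFiniteMeasure μ],
      μ ≠ 0 → Atomless μ → narIndex 4 μ = Real.sqrt 2 / 4 :=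
    fun Ω _ μ _ hμ hA => (nar_eq μ).trans (fin_nar hLOW hRAD hRADLE hROT Ω μ hμ hA)
  have h2 : numIndex (Lp ℝ 4 (volume.restrict (Set.Icc (0 : ℝ) 1))) ≤ 0.3535 :=
    fin_idx hRADLE hTEN st_SOS
  refine ⟨h1, ⟨st_ATL, h2, fin_num⟩, ?_⟩
  intro h
  have h3 := h 4 (by norm_num) (by norm_num) ℝ (volume.restrict (Set.Icc (0 : ℝ) 1)) fin_ne st_ATL
  have h4 := h1 ℝ (volume.restrict (Set.Icc (0 : ℝ) 1)) fin_ne st_ATL
  have h5 := fin_num
  rw [h4] at h3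
  linarith

end Pool.Agent.Results.MP_119d8d_an.NarrowLarger
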